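import Pool.Agent.J6H38.DIR.Stm2
import Pool.Agent.J6H81.NC.Difu
import Pool.Agent.J6H38.NC.Conc

/-!
# Module SHAPE: the shape theorem from the variance bound
-/

set_option autoImplicit false

open MeasureTheory ProbabilityTheory Filter Topology
open scoped ENNReal

namespace Pool.Agent.J6H78.DIR

open Pool.Agent.J6H99.NC Pool.Agent.J6H81.NC Pool.Agent.J6H38.DIR

variable {e : ℕ} {q : Par} {F : Measure ℝ} [IsProbabilityMeasure F]

/-- uniform concentration in a ball, with the rate `1 / R` -/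
theorem conc_rate (hvar : VarB e q F) {δ : ℝ} (hδ : 0 < δ) :
    ∃ C' R0 : ℝ, 0 ≤ C' ∧ 0 < R0 ∧ ∀ R : ℝ, R0 ≤ R →
      PM e F {ω | ∃ y : V e, (n1 y : ℝ) ≤ R ∧ δ * R < |T q ω 0 y - g q F y|} ≤
        ENNReal.ofReal (C' / R) := by
  classical
  obtain ⟨C, hC, hvar⟩ := hvar
  have he : (0 : ℝ) ≤ e := Nat.cast_nonneg e
  have hb := q.hb
  -- the mesh size
  set θ : ℝ := δ / (8 * q.b * ((e : ℝ) + 2)) with hθ
  have hθ0 : 0 < θ := by positivity
  set M : ℕ := ⌈1 / θ⌉₊ + 1 with hM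
  have hM1 : 1 / θ + 1 ≤ M := by rw [hM]; push_cast; linarith [Nat.le_ceil (1 / θ)]
  set B : Finset (V e) := Finset.Icc (fun _ => -(M : ℤ)) (fun _ => (M : ℤ)) with hB
  -- the constant
  set C' : ℝ := B.card * (C * (((e : ℝ) + 2) * M * (2 * θ)) / (δ / 4) ^ 2) with hC'
  have hC'0 : 0 ≤ C' := by positivity
  refine ⟨C', 1 / θ, hC'0, by positivity, fun R hR1 => ?_⟩
  have hR0 : 0 < R := lt_of_lt_of_le (by positivity) hR1
  have hθR : 1 ≤ θ * R := by
    rw [div_le_iff₀ hθ0] at hR1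
    linarith
  set H : ℕ := ⌈θ * R⌉₊ with hH
  have hH1 : θ * R ≤ H := Nat.le_ceil _
  have hH2 : (H : ℝ) ≤ 2 * θ * R := by
    have := Nat.ceil_lt_add_one (show 0 ≤ θ * R by positivity)
    linarith
  have hH0 : 0 < H := Nat.ceil_pos.2 (by positivity)
  have hH0' : (0 : ℝ) < H := by exact_mod_cast hH0
  -- the bad events at the mesh points
  have hsub : {ω : Om e | ∃ y : V e, (n1 y : ℝ) ≤ R ∧ δ * R < |T q ω 0 y - g q F y|} ⊆
      ⋃ w ∈ B, {ω | δ / 4 * R ≤ |T q ω 0 ((H : ℤ) • w) - g q F ((H : ℤ) • w)|} := by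
    rintro ω ⟨y, hy1, hy2⟩
    rw [Set.mem_iUnion₂]
    set w : V e := fun i => y i / H with hw
    have hz : (H : ℤ) • w = Pool.Agent.J6H38.NC.mesh H y := by
      funext i
      simp [hw, Pool.Agent.J6H38.NC.mesh]
    refine ⟨w, ?_, ?_⟩
    · rw [hB, Finset.mem_Icc]
      have h1 : ∀ i, |w i| ≤ (M : ℤ) := by
        intro i
        have h2 : (|y i| : ℝ) ≤ R := by
          have := coord_le_n1 y i
          have h3 : ((|y i| : ℤ) : ℝ) ≤ n1 y := by exact_mod_cast this
          push_cast at h3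
          linarith
        have hH' : (0 : ℤ) < H := by exact_mod_cast hH0
        have h3 := Int.ediv_mul_le (y i) hH'.ne'
        have h4 := Int.lt_ediv_add_one_mul_self (y i) hH'
        have h3' : ((w i : ℤ) : ℝ) * H ≤ y i := by exact_mod_cast h3
        have h4' : (y i : ℝ) < ((w i : ℤ) + 1 : ℝ) * H := by exact_mod_cast h4
        have h5 := (abs_le.1 h2)
        have h6 : R ≤ 1 / θ * H := by
          rw [div_mul_eq_mul_div, le_div_iff₀ hθ0]
          linarith
        have h7 : (w i : ℝ) ≤ 1 / θ := by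
          by_contra hlt
          push Not at hlt
          have := mul_lt_mul_of_pos_right hlt hH0'
          linarith
        have h8 : -(1 / θ) - 1 ≤ (w i : ℝ) := by
          by_contra hlt
          push Not at hlt
          have h9 : ((w i : ℤ) : ℝ) + 1 < -(1 / θ) := by linarith
          have := mul_lt_mul_of_pos_right h9 hH0'
          linarith
        have h10 : ((|w i| : ℤ) : ℝ) ≤ M := by
          push_cast
          rw [abs_le]
          constructor <;> linarith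
        exact_mod_cast h10
      exact ⟨fun i => (abs_le.1 (h1 i)).1, fun i => (abs_le.1 (h1 i)).2⟩
    · show δ / 4 * R ≤ |T q ω 0 ((H : ℤ) • w) - g q F ((H : ℤ) • w)|
      rw [hz]
      have h1 : (n1 (y - Pool.Agent.J6H38.NC.mesh H y) : ℝ) ≤ (e + 2) * H := by
        exact_mod_cast Pool.Agent.J6H38.NC.n1_mesh_sub hH0 y
      have h2 : (n1 (Pool.Agent.J6H38.NC.mesh H y - y) : ℝ) ≤ (e + 2) * H := by
        rw [n1_sub_comm]; exact h1
      have h3 := Pool.Agent.J6H38.NC.T_lip q ω 0 y (Pool.Agent.J6H38.NC.mesh H y)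
      have h4 := Pool.Agent.J6H38.NC.T_lip q ω 0 (Pool.Agent.J6H38.NC.mesh H y) y
      have h5 := g_sub_le q F y (Pool.Agent.J6H38.NC.mesh H y)
      have h6 := g_sub_le q F (Pool.Agent.J6H38.NC.mesh H y) y
      have h7 : q.b * ((e + 2) * H) ≤ δ / 4 * R := by
        have h8 : q.b * (((e : ℝ) + 2) * H) ≤ q.b * (((e : ℝ) + 2) * (2 * θ * R)) := by gcongr
        refine h8.trans (le_of_eq ?_)
        rw [hθ]
        field_simp
        ring
      have h8 := mul_le_mul_of_nonneg_left h1 hb.le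
      have h9 := mul_le_mul_of_nonneg_left h2 hb.le
      rcases le_abs.1 (le_of_lt hy2) with h10 | h10
      · exact le_abs.2 (Or.inl (by linarith))
      · exact le_abs.2 (Or.inr (by linarith))
  refine (measure_mono hsub).trans ((measure_biUnion_finset_le _ _).trans ?_)
  have hone : ∀ w ∈ B, PM e F {ω | δ / 4 * R ≤
      |T q ω 0 ((H : ℤ) • w) - g q F ((H : ℤ) • w)|} ≤
      ENNReal.ofReal (C * (((e : ℝ) + 2) * M * (2 * θ)) / (δ / 4) ^ 2 / R) := by
    intro w hw
    refine (Pool.Agent.J6H38.NC.cheb ((H : ℤ) • w) (hvar _) (by positivity)).trans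
      (ENNReal.ofReal_le_ofReal ?_)
    have h1 : (n1 ((H : ℤ) • w) : ℝ) ≤ 2 * θ * R * (((e : ℝ) + 2) * M) := by
      have h2 : (n1 ((H : ℤ) • w) : ℝ) = H * n1 w := by
        unfold n1
        push_cast
        rw [Finset.mul_sum]
        refine Finset.sum_congr rfl fun i _ => ?_
        simp [abs_mul]
      have h3 : (n1 w : ℝ) ≤ ((e : ℝ) + 2) * M := by
        have h4 : n1 w ≤ ∑ _i : Fin (e + 2), (M : ℤ) := by
          unfold n1
          refine Finset.sum_le_sum fun i _ => ?_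
          rw [hB, Finset.mem_Icc] at hw
          exact abs_le.2 ⟨hw.1 i, hw.2 i⟩
        have h5 : ((n1 w : ℤ) : ℝ) ≤ ((∑ _i : Fin (e + 2), (M : ℤ) : ℤ) : ℝ) := by
          exact_mod_cast h4
        simpa using h5
      rw [h2]
      have h4 : (0 : ℝ) ≤ n1 w := by exact_mod_cast n1_nonneg w
      calc (H : ℝ) * n1 w ≤ (2 * θ * R) * n1 w := mul_le_mul_of_nonneg_right hH2 h4
        _ ≤ (2 * θ * R) * (((e : ℝ) + 2) * M) :=
          mul_le_mul_of_nonneg_left h3 (by positivity)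
    have h2 : C * n1 ((H : ℤ) • w) / (δ / 4 * R) ^ 2 ≤
        C * (2 * θ * R * (((e : ℝ) + 2) * M)) / (δ / 4 * R) ^ 2 := by gcongr
    refine h2.trans (le_of_eq ?_)
    field_simp
  refine (Finset.sum_le_sum hone).trans ?_
  rw [Finset.sum_const, nsmul_eq_mul, ← ENNReal.ofReal_natCast, ← ENNReal.ofReal_mul (by positivity)]
  refine ENNReal.ofReal_le_ofReal ?_
  rw [← mul_div_assoc, ← hC']

/-- almost surely, eventually all passage times in the dyadic balls are close to their means -/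
theorem ae_dyadic (hvar : VarB e q F) {δ : ℝ} (hδ : 0 < δ) :
    ∀ᵐ ω ∂(PM e F), ∀ᶠ k : ℕ in atTop, ∀ y : V e, (n1 y : ℝ) ≤ 2 ^ k →
      |T q ω 0 y - g q F y| ≤ δ * 2 ^ k := by
  obtain ⟨C', R0, hC', hR0, h⟩ := conc_rate (q := q) (F := F) hvar hδ
  obtain ⟨k0, hk0⟩ := pow_unbounded_of_one_lt R0 (one_lt_two : (1 : ℝ) < 2)
  set S : ℕ → Set (Om e) := fun k => {ω | ∃ y : V e, (n1 y : ℝ) ≤ 2 ^ k ∧
    δ * 2 ^ k < |T q ω 0 y - g q F y|} with hS
  have hsum : (∑' k, PM e F (S (k + k0))) ≠ ∞ := by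
    have h1 : ∀ k, PM e F (S (k + k0)) ≤ ENNReal.ofReal (C' * (1 / 2 : ℝ) ^ k) := by
      intro k
      have h2 : R0 ≤ (2 : ℝ) ^ (k + k0) := by
        rw [pow_add]
        have h3 : (1 : ℝ) ≤ 2 ^ k := one_le_pow₀ one_le_two
        nlinarith
      refine (h _ h2).trans (ENNReal.ofReal_le_ofReal ?_)
      rw [div_eq_mul_inv, one_div, inv_pow]
      refine mul_le_mul_of_nonneg_left ?_ hC'
      rw [pow_add]
      refine inv_anti₀ (by positivity) ?_
      have h3 : (1 : ℝ) ≤ 2 ^ k0 := one_le_pow₀ one_le_two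
      have h4 : (0 : ℝ) < 2 ^ k := by positivity
      nlinarith
    refine ne_top_of_le_ne_top ?_ (ENNReal.tsum_le_tsum h1)
    have h2 : Summable fun k : ℕ => C' * (1 / 2 : ℝ) ^ k :=
      (summable_geometric_of_lt_one (by norm_num) (by norm_num)).mul_left C'
    rw [← ENNReal.ofReal_tsum_of_nonneg (fun k => by positivity) h2]
    exact ENNReal.ofReal_ne_top
  filter_upwards [ae_eventually_notMem hsum] with ω hω
  obtain ⟨N, hN⟩ := eventually_atTop.1 hω
  refine eventually_atTop.2 ⟨N + k0, fun k hk y hy => ?_⟩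
  have h1 := hN (k - k0) (by omega)
  rw [Nat.sub_add_cancel (by omega)] at h1
  by_contra hlt
  push Not at hlt
  exact h1 ⟨y, hy, hlt⟩

lemma finite_ball (N : ℤ) : {v : V e | n1 v < N}.Finite := by
  refine (Finset.finite_toSet (Finset.Icc (fun _ => -N : V e) (fun _ => N))).subset fun v hv => ?_
  rw [Finset.mem_coe, Finset.mem_Icc]
  have h1 : n1 v < N := hv
  have h2 : ∀ i, |v i| ≤ N := fun i => (coord_le_n1 v i).trans h1.le
  exact ⟨fun i => (abs_le.1 (h2 i)).1, fun i => (abs_le.1 (h2 i)).2⟩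

/-- **MODULE SHAPE.** -/
theorem shape : ShapeT := by
  intro e q F _ hvar hfar
  have h1 : ∀ᵐ ω ∂(PM e F), ∀ j : ℕ, ∀ᶠ k : ℕ in atTop, ∀ y : V e, (n1 y : ℝ) ≤ 2 ^ k →
      |T q ω 0 y - g q F y| ≤ 1 / ((j : ℝ) + 1) * 2 ^ k :=
    ae_all_iff.2 fun j => ae_dyadic hvar (by positivity)
  obtain ⟨c, hc, hL⟩ := L_lower (q := q) (F := F) hfar
  filter_upwards [h1] with ω hω
  rw [Metric.tendsto_nhds]
  intro ε hε
  obtain ⟨j, hj⟩ := exists_nat_one_div_lt (show 0 < ε * c / 4 by positivity)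
  obtain ⟨k0, hk0⟩ := eventually_atTop.1 (hω j)
  obtain ⟨N, hN⟩ := g_le_L (q := q) (F := F) (e := e) (ε := ε * c / 4) (by positivity)
  rw [eventually_cofinite]
  refine (finite_ball (e := e) ((N : ℤ) + 2 ^ k0 + 1)).subset fun v hv => ?_
  by_contra hlt
  refine hv ?_
  have h2 : (N : ℤ) + 2 ^ k0 + 1 ≤ n1 v := not_lt.1 hlt
  obtain ⟨n, hn⟩ := Int.eq_ofNat_of_zero_le (n1_nonneg v)
  rw [hn] at h2
  have h3 : N + 2 ^ k0 + 1 ≤ n := by exact_mod_cast h2
  clear h2
  have hp0 : 0 < 2 ^ k0 := by positivity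
  have hn0 : (0 : ℝ) < n := by
    have : 0 < n := by omega
    exact_mod_cast this
  have hnv : (n1 v : ℝ) = n := by rw [hn, Int.cast_natCast]
  -- the dyadic scale
  set k := Nat.clog 2 n with hk
  have h4 : n ≤ 2 ^ k := Nat.le_pow_clog one_lt_two n
  have h5 : (2 : ℝ) ^ k ≤ 2 * n := by
    have h6 : 2 ^ (k - 1) < n := Nat.pow_pred_clog_lt_self one_lt_two (by omega)
    have h7 : 0 < k := Nat.clog_pos one_lt_two (by omega)
    have h8 : 2 ^ k = 2 * 2 ^ (k - 1) := by
      rw [← pow_succ']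
      congr 1
      omega
    have h9 : 2 ^ k ≤ 2 * n := by omega
    exact_mod_cast h9
  have h6 : k0 ≤ k := by
    by_contra hlt'
    push Not at hlt'
    have h7 : 2 ^ k ≤ 2 ^ k0 := Nat.pow_le_pow_right (by norm_num) hlt'.le
    omega
  have h7 := hk0 k h6 v (by rw [hnv]; exact_mod_cast h4)
  have h8 := hN v (by rw [hn]; exact_mod_cast (by omega : N ≤ n))
  have h9 := L_vc (q := q) (F := F) v
  have h10 := hL (vc v)
  rw [nr_vc, hnv] at h10
  rw [hnv] at h8
  have hLpos : 0 < L q F (vc v) := lt_of_lt_of_le (by positivity) h10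
  have h11 : |T q ω 0 v - L q F (vc v)| < ε * L q F (vc v) := by
    have h12 : 1 / ((j : ℝ) + 1) * 2 ^ k ≤ ε * c / 4 * (2 * n) := by
      gcongr
    have h13 : |T q ω 0 v - g q F v| ≤ ε * c / 4 * (2 * n) := h7.trans h12
    have h14 : ε * (c * n) ≤ ε * L q F (vc v) := mul_le_mul_of_nonneg_left h10 hε.le
    have h15 : 0 < ε * c * n := by positivity
    rw [abs_le] at h13
    rw [abs_lt]
    constructor
    · nlinarith
    · nlinarith
  rw [Real.dist_eq]
  have h12 : T q ω 0 v / L q F (vc v) - 1 = (T q ω 0 v - L q F (vc v)) / L q F (vc v) := by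
    field_simp
  rw [h12, abs_div, abs_of_pos hLpos, div_lt_iff₀ hLpos]
  exact h11

end Pool.Agent.J6H78.DIR
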